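import Pool.Agent.H60.LQ.Two
import Pool.Agent.H40.KTH.SEC
import Pool.Agent.H32.Dense.Conf

/-!
# LQ, row SEC3: a random section, with the law of two copies
-/

set_option autoImplicit false

namespace Pool.LQ

open Finset Real
open Pool.Agent.H49.Ent Pool.Agent.H32.Dense Pool.Agent.H24.KTH

namespace Sec3

/-- Two copies depend only on the partition given by `b`, on the support. -/
lemma dbl_congr' {Ω β γ : Type*} [Fintype Ω] {p : Ω → ℝ} (hp : ∀ ω, 0 ≤ p ω) {b : Ω → β}
    {c : Ω → γ} (h : ∀ x y, 0 < p x → 0 < p y → (b x = b y ↔ c x = c y)) : dbl p b = dbl p c := by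
  classical
  funext w
  unfold dbl glue
  rcases (hp w.1).eq_or_lt with h1 | h1
  · simp [← h1]
  rcases (hp w.2).eq_or_lt with h2 | h2
  · simp [← h2]
  have e1 : law p b (b w.1) = law p c (c w.1) := by
    unfold law
    refine Finset.sum_congr rfl fun ω _ => ?_
    rcases (hp ω).eq_or_lt with h3 | h3
    · simp [← h3]
    · by_cases h4 : b ω = b w.1
      · rw [if_pos h4, if_pos ((h _ _ h3 h1).mp h4)]
      · rw [if_neg h4, if_neg fun h5 => h4 ((h _ _ h3 h1).mpr h5)]
  rw [e1]
  by_cases h4 : b w.1 = b w.2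
  · rw [if_pos h4, if_pos ((h _ _ h1 h2).mp h4)]
  · rw [if_neg h4, if_neg fun h5 => h4 ((h _ _ h1 h2).mpr h5)]

/-- Two copies of a gluing, given the common value and a function of the first space: the second
components are two copies given the common value. -/
lemma marg_dbl_glue {Ω₁ Ω₂ T α : Type*} [Fintype Ω₁] [Fintype Ω₂] {p₁ : Ω₁ → ℝ} {p₂ : Ω₂ → ℝ}
    {Z₁ : Ω₁ → T} {Z₂ : Ω₂ → T} (h₁ : ∀ ω, 0 ≤ p₁ ω) (h₂ : ∀ ω, 0 ≤ p₂ ω)
    (hZ : ∀ z, law p₁ Z₁ z = law p₂ Z₂ z) (A : Ω₁ → α) :
    Marg (dbl (glue p₁ p₂ Z₁ Z₂) (fun w => (Z₂ w.2, A w.1))) (dbl p₂ Z₂)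
      (fun x => (x.1.2, x.2.2)) := by
  classical
  rintro ⟨a, b⟩
  set g := glue p₁ p₂ Z₁ Z₂ with hg
  set W : Ω₁ × Ω₂ → T × α := fun w => (Z₂ w.2, A w.1) with hW
  have e0 : (∑ x : (Ω₁ × Ω₂) × (Ω₁ × Ω₂), if (x.1.2, x.2.2) = (a, b) then dbl g W x else 0) =
      ∑ x, ∑ y, dbl g W ((x, a), (y, b)) := by
    rw [Fintype.sum_prod_type, Fintype.sum_prod_type]
    refine Finset.sum_congr rfl fun x _ => ?_
    rw [Finset.sum_eq_single a]
    · rw [Fintype.sum_prod_type]
      refine Finset.sum_congr rfl fun y _ => ?_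
      rw [Finset.sum_eq_single b]
      · simp
      · intro c _ hc
        simp [hc]
      · intro h
        exact absurd (Finset.mem_univ _) h
    · intro c _ hc
      refine Finset.sum_eq_zero fun y _ => ?_
      simp [hc]
    · intro h
      exact absurd (Finset.mem_univ _) h
  refine (Finset.sum_congr rfl fun x _ => by congr).trans (e0.trans ?_)
  by_cases hab : Z₂ a = Z₂ b
  swap
  · have : dbl p₂ Z₂ (a, b) = 0 := by
      unfold dbl glue
      rw [if_neg hab]
    rw [this]
    refine Finset.sum_eq_zero fun x _ => Finset.sum_eq_zero fun y _ => ?_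
    unfold dbl glue
    rw [if_neg]
    intro h
    simp only [hW, Prod.mk.injEq] at h
    exact hab h.1
  have hd : dbl p₂ Z₂ (a, b) = p₂ a * p₂ b / law p₂ Z₂ (Z₂ a) := by
    unfold dbl glue
    rw [if_pos hab]
  rw [hd]
  set L := law p₂ Z₂ (Z₂ a) with hL
  set c : Ω₁ → ℝ := fun x => if Z₁ x = Z₂ a then p₁ x else 0 with hc
  have hc0 : ∀ x, 0 ≤ c x := by
    intro x
    simp only [hc]
    split_ifs
    · exact h₁ x
    · exact le_rfl
  have hcL : ∑ x, c x = L := by
    rw [hL, ← hZ]
    rfl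
  have hga : ∀ x, g (x, a) = c x * p₂ a / L := by
    intro x
    simp only [hg, glue, hc]
    by_cases h : Z₁ x = Z₂ a
    · rw [if_pos h, if_pos h, h, hZ]
    · rw [if_neg h, if_neg h]
      simp
  have hgb : ∀ x, g (x, b) = c x * p₂ b / L := by
    intro x
    simp only [hg, glue, hc, hL]
    rw [hab]
    by_cases h : Z₁ x = Z₂ b
    · rw [if_pos h, if_pos h, h, hZ]
    · rw [if_neg h, if_neg h]
      simp
  rcases (law_nonneg h₂ Z₂ (Z₂ a)).eq_or_lt with hL0 | hL0
  · rw [← hL] at hL0
    rw [← hL0, div_zero]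
    refine Finset.sum_eq_zero fun x _ => Finset.sum_eq_zero fun y _ => ?_
    unfold dbl glue
    split_ifs
    · rw [show ((x, a), (y, b)).1 = (x, a) from rfl, hga, ← hL0]
      simp
    · rfl
  rw [← hL] at hL0
  set m : α → ℝ := fun z => ∑ y, if A y = z then c y else 0 with hm
  have hlaw : ∀ x, law g W (Z₂ a, A x) = m (A x) := by
    intro x
    unfold law
    rw [Fintype.sum_prod_type]
    simp only [hm]
    refine Finset.sum_congr rfl fun y _ => ?_
    by_cases h : A y = A x
    · rw [if_pos h]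
      have e1 : ∀ o, (if W (y, o) = (Z₂ a, A x) then g (y, o) else 0) =
          (if Z₂ o = Z₂ a then p₂ o else 0) * (c y / L) := by
        intro o
        simp only [hW, Prod.mk.injEq, h, and_true]
        by_cases ho : Z₂ o = Z₂ a
        · rw [if_pos ho, if_pos ho]
          simp only [hg, glue, hc]
          rw [ho]
          by_cases h3 : Z₁ y = Z₂ a
          · rw [if_pos h3, if_pos h3, h3, hZ]
            ring
          · rw [if_neg h3, if_neg h3]
            simp
        · rw [if_neg ho, if_neg ho]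
          simp
      refine (Finset.sum_congr rfl fun o _ => Eq.trans (by congr) (e1 o)).trans ?_
      rw [← Finset.sum_mul]
      have e2 : (∑ o, if Z₂ o = Z₂ a then p₂ o else 0) = L := by
        rw [hL]
        unfold law
        exact Finset.sum_congr rfl fun o _ => by congr
      rw [e2, mul_div_cancel₀ _ hL0.ne']
    · rw [if_neg h]
      refine Finset.sum_eq_zero fun o _ => ?_
      rw [if_neg]
      intro h3
      simp only [hW, Prod.mk.injEq] at h3
      exact h h3.2
  have hterm : ∀ x y, dbl g W ((x, a), (y, b)) =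
      (if A y = A x then c y else 0) * (c x / m (A x)) * (p₂ a * p₂ b / L ^ 2) := by
    intro x y
    unfold dbl
    have e0 : glue g g W W ((x, a), (y, b)) = if W (x, a) = W (y, b) then
      g (x, a) * g (y, b) / law g W (W (x, a)) else 0 := by
      unfold glue
      congr
    rw [e0]
    have e1 : W (x, a) = W (y, b) ↔ A y = A x := by
      simp only [hW, Prod.mk.injEq, hab, true_and]
      exact eq_comm
    by_cases h : A y = A x
    · rw [if_pos (e1.mpr h), if_pos h, hga, hgb]
      have e2 : law g W (W (x, a)) = m (A x) := hlaw x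
      rw [e2]
      rcases eq_or_ne (m (A x)) 0 with h3 | h3
      · rw [h3]
        simp
      · field_simp
    · rw [if_neg fun h' => h (e1.mp h'), if_neg h]
      simp
  simp_rw [hterm]
  have e5 : ∀ x, ∑ y, (if A y = A x then c y else 0) * (c x / m (A x)) *
      (p₂ a * p₂ b / L ^ 2) = c x * (p₂ a * p₂ b / L ^ 2) := by
    intro x
    rw [← Finset.sum_mul, ← Finset.sum_mul]
    change m (A x) * (c x / m (A x)) * _ = _
    rcases (hc0 x).eq_or_lt with h3 | h3
    · rw [← h3]
      simp
    · have h4 : 0 < m (A x) := by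
        refine lt_of_lt_of_le h3 ?_
        have h5 := Finset.single_le_sum (f := fun y => if A y = A x then c y else 0)
          (fun y _ => by
            split_ifs
            · exact hc0 y
            · exact le_rfl) (Finset.mem_univ x)
        simpa using h5
      rw [mul_div_cancel₀ _ h4.ne']
  rw [Finset.sum_congr rfl fun x _ => e5 x, ← Finset.sum_mul, hcL]
  field_simp

end Sec3

open SecAux in
theorem sec3 : SEC3Stmt := by
  classical
  intro Ω _ p hp h1 S T v l hlv
  let vv : Ω → {x : S // x ∈ univ.image v} := fun ω => ⟨v ω, mem_image_of_mem v (mem_univ ω)⟩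
  let c : {x : S // x ∈ univ.image v} → Ω → ℝ :=
    fun x => if law p v x.1 = 0 then p else cond p v x.1
  have hc0 : ∀ x ω, 0 ≤ c x ω := by
    intro x ω
    simp only [c]
    split_ifs
    · exact hp ω
    · exact cond_nonneg hp v x.1 ω
  have hc1 : ∀ x, ∑ ω, c x ω = 1 := by
    intro x
    simp only [c]
    split_ifs with h
    · exact h1
    · exact sum_cond p v h
  let q : ({x : S // x ∈ univ.image v} → Ω) → ℝ := fun R => ∏ x, c x (R x)
  have hq0 : ∀ R, 0 ≤ q R := fun R => Finset.prod_nonneg fun x _ => hc0 x (R x)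
  have hq1 : ∑ R, q R = 1 := sum_prod c hc1
  have hu : ∀ z : Unit, law q (fun _ => ()) z = law p (fun _ => ()) z := by
    intro z
    simp [law, hq1, h1]
  have hu1 : ∀ z : Unit, law q (fun _ => ()) z = 1 := by
    intro z
    simp [law, hq1]
  let p₁ : ({x : S // x ∈ univ.image v} → Ω) × Ω → ℝ := glue q p (fun _ => ()) (fun _ => ())
  have hp₁ : ∀ w, 0 ≤ p₁ w := glue_nonneg hq0 hp
  have hp₁' : ∀ R ω, p₁ (R, ω) = q R * p ω := by
    intro R ω
    simp only [p₁, glue, if_true]
    rw [hu1, div_one]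
  let Y₁ : ({x : S // x ∈ univ.image v} → Ω) × Ω → S × T :=
    fun w => (v w.2, l (w.1 (vv w.2)))
  let Y₂ : Ω → S × T := fun ω => (v ω, l ω)
  have hY : ∀ z, law p₁ Y₁ z = law p Y₂ z := by
    rintro ⟨x, y⟩
    by_cases hx : law p v x = 0
    · have e1 : law p Y₂ (x, y) = 0 := by
        refine le_antisymm ?_ (law_nonneg hp _ _)
        rw [← hx]
        unfold law
        refine Finset.sum_le_sum fun ω _ => ?_
        simp only [Y₂, Prod.mk.injEq]
        by_cases h2 : v ω = x <;> by_cases h3 : l ω = y <;> simp [h2, h3, hp ω]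
      have e2 : law p₁ Y₁ (x, y) = 0 := by
        refine le_antisymm ?_ (law_nonneg hp₁ _ _)
        have e3 : law p₁ (fun w => v w.2) x = law p v x := law_glue_snd hp hu v x
        rw [← hx, ← e3]
        unfold law
        refine Finset.sum_le_sum fun w _ => ?_
        simp only [Y₁, Prod.mk.injEq]
        by_cases h2 : v w.2 = x
        · by_cases h3 : l (w.1 (vv w.2)) = y
          · simp [h2, h3]
          · simp [h2, h3, hp₁ w]
        · simp [h2]
      rw [e1, e2]
    · have hmem : x ∈ univ.image v := by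
        by_contra h
        exact hx (law_eq_zero_of_notMem p v h)
      have e0 : law q (fun R => l (R ⟨x, hmem⟩)) y = law (cond p v x) l y := by
        have := (marg_pi c hc1 ⟨x, hmem⟩).law l y
        rw [show (fun R : {x : S // x ∈ univ.image v} → Ω => ∏ y, c y (R y)) = q from rfl] at this
        rw [this]
        simp only [c]
        rw [if_neg hx]
      have e1 : law p₁ Y₁ (x, y) = law q (fun R => l (R ⟨x, hmem⟩)) y * law p v x := by
        unfold law
        rw [Fintype.sum_prod_type, Finset.sum_mul_sum]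
        refine Finset.sum_congr rfl fun R _ => Finset.sum_congr rfl fun ω _ => ?_
        rw [hp₁']
        simp only [Y₁, Prod.mk.injEq]
        by_cases h2 : v ω = x
        · have h4 : vv ω = ⟨x, hmem⟩ := Subtype.ext h2
          rw [h4]
          by_cases h3 : l (R ⟨x, hmem⟩) = y
          · simp [h2, h3]
          · simp [h3]
        · simp [h2]
      rw [e1, e0, law_cond, div_mul_cancel₀ _ hx]
      unfold law
      refine Finset.sum_congr rfl fun ω _ => ?_
      simp only [Y₂, Prod.mk.injEq]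
      by_cases h2 : v ω = x <;> by_cases h3 : l ω = y <;> simp [h2, h3]
  have hg := glue_nonneg (Z₁ := Y₁) (Z₂ := Y₂) hp₁ hp
  have key : ∀ w, 0 < glue p₁ p Y₁ Y₂ w → v w.1.2 = v w.2 ∧ l (w.1.1 (vv w.2)) = l w.2 := by
    intro w hw
    obtain ⟨_, _, h3⟩ := (glue_pos_iff hp₁ hp w).mp hw
    simp only [Y₁, Y₂, Prod.mk.injEq] at h3
    have h4 : vv w.1.2 = vv w.2 := Subtype.ext h3.1
    exact ⟨h3.1, by rw [← h4]; exact h3.2⟩
  refine ⟨_, _, glue p₁ p Y₁ Y₂, _, fun w x => l (w.1.1 x), fun w => w.2, hg,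
    marg_snd hp hY, ?_, ?_, ?_, ?_⟩
  · intro w w' hw hw' e
    simp only [Prod.mk.injEq] at e
    have k1 := key w hw
    have k2 := key w' hw'
    have h4 : vv w.2 = vv w'.2 := Subtype.ext e.1
    have h5 := congrFun e.2 (vv w.2)
    rw [k1.2, h4, k2.2] at h5
    exact h5
  · have e1 : H (glue p₁ p Y₁ Y₂) (fun w => (v w.2, fun x => l (w.1.1 x))) =
        H p₁ (fun w => ((fun x => l (w.1 x)), v w.2)) := by
      rw [← H_glue_fst hp₁ hY]
      refine H_congr hg ?_ ?_
      · intro w w' hw hw' e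
        simp only [Prod.mk.injEq] at e ⊢
        rw [← (key w hw).1, ← (key w' hw').1]
        exact ⟨e.2, e.1⟩
      · intro w w' hw hw' e
        simp only [Prod.mk.injEq] at e ⊢
        rw [(key w hw).1, (key w' hw').1]
        exact ⟨e.2, e.1⟩
    have e2 : H (glue p₁ p Y₁ Y₂) (fun w => fun x => l (w.1.1 x)) =
        H q (fun R => fun x => l (R x)) := by
      rw [H_glue_fst hp₁ hY (fun w => fun x => l (w.1 x))]
      exact H_glue_fst hq0 hu (fun R => fun x => l (R x))
    have e3 : H p₁ (fun w => ((fun x => l (w.1 x)), v w.2)) =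
        H q (fun R => fun x => l (R x)) + H p v := by
      have := H_glue_pair hq0 hp hu (X := fun R => fun x => l (R x)) (Y := v)
        (fun _ _ _ _ _ => rfl) (fun _ _ _ _ _ => rfl)
      rw [H_const hq1, sub_zero] at this
      exact this
    unfold CH
    rw [e1, e2, e3]
    ring
  · intro U X
    have hlY : Det p l Y₂ := by
      intro ω ω' a b e
      simp only [Y₂, Prod.mk.injEq]
      exact ⟨hlv ω ω' a b e, e⟩
    have e1 := CH_glue_snd hp₁ hp hY X (Y := l) (fun w => fun x => l (w.1 x)) hlY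
    rw [← e1]
    unfold CH
    have d1 : ∀ w w', 0 < glue p₁ p Y₁ Y₂ w → 0 < glue p₁ p Y₁ Y₂ w' → l w.2 = l w'.2 →
        v w.2 = v w'.2 := by
      intro w w' hw hw' e
      exact hlv _ _ ((glue_pos_iff hp₁ hp w).mp hw).2.1 ((glue_pos_iff hp₁ hp w').mp hw').2.1 e
    have d2 : ∀ w w', 0 < glue p₁ p Y₁ Y₂ w → 0 < glue p₁ p Y₁ Y₂ w' → v w.2 = v w'.2 →
        (fun x => l (w.1.1 x)) = (fun x => l (w'.1.1 x)) → l w.2 = l w'.2 := by
      intro w w' hw hw' e e'
      have h4 : vv w.2 = vv w'.2 := Subtype.ext e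
      have h5 := congrFun e' (vv w.2)
      rw [(key w hw).2, h4, (key w' hw').2] at h5
      exact h5
    have a1 : H (glue p₁ p Y₁ Y₂) (fun w => (X w.2, (l w.2, fun x => l (w.1.1 x)))) =
        H (glue p₁ p Y₁ Y₂) (fun w => (X w.2, (v w.2, fun x => l (w.1.1 x)))) := by
      refine H_congr hg ?_ ?_
      · intro w w' hw hw' e
        simp only [Prod.mk.injEq] at e ⊢
        exact ⟨e.1, d2 w w' hw hw' e.2.1 e.2.2, e.2.2⟩
      · intro w w' hw hw' e
        simp only [Prod.mk.injEq] at e ⊢
        exact ⟨e.1, d1 w w' hw hw' e.2.1, e.2.2⟩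
    have a2 : H (glue p₁ p Y₁ Y₂) (fun w => (l w.2, fun x => l (w.1.1 x))) =
        H (glue p₁ p Y₁ Y₂) (fun w => (v w.2, fun x => l (w.1.1 x))) := by
      refine H_congr hg ?_ ?_
      · intro w w' hw hw' e
        simp only [Prod.mk.injEq] at e ⊢
        exact ⟨d2 w w' hw hw' e.1 e.2, e.2⟩
      · intro w w' hw hw' e
        simp only [Prod.mk.injEq] at e ⊢
        exact ⟨d1 w w' hw hw' e.1, e.2⟩
    rw [a1, a2]

  · intro f
    have h5 := (Sec3.marg_dbl_glue hp₁ hp hY (fun w => fun x => l (w.1 x))).ex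
      (fun y => f y.1 y.2)
    have h6 : dbl (glue p₁ p Y₁ Y₂) (fun w => (Y₂ w.2, fun x => l (w.1.1 x))) =
        dbl (glue p₁ p Y₁ Y₂) (fun w => (v w.2, fun x => l (w.1.1 x))) := by
      refine Sec3.dbl_congr' hg fun x y hx hy => ?_
      simp only [Y₂, Prod.mk.injEq]
      constructor
      · rintro ⟨⟨h7, _⟩, h8⟩
        exact ⟨h7, h8⟩
      · rintro ⟨h7, h8⟩
        refine ⟨⟨h7, ?_⟩, h8⟩
        have h4 : vv x.2 = vv y.2 := Subtype.ext h7
        have h9 := congrFun h8 (vv x.2)
        rw [(key x hx).2, h4, (key y hy).2] at h9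
        exact h9
    have h7 : dbl p Y₂ = dbl p l := by
      refine Sec3.dbl_congr' hp fun x y hx hy => ?_
      simp only [Y₂, Prod.mk.injEq]
      exact ⟨fun h => h.2, fun h => ⟨hlv x y hx hy h, h⟩⟩
    rw [h6, h7] at h5
    exact h5

end Pool.LQ
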